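import Mathlib

/-!
# Monotone non-adaptive data structures for SetIntersection: definitions
-/

namespace Pool.Agent.H257R3.SI

/-- Two families of `m` sets each, all of them subsets of the universe `{0, …, N - 1}`;
ordered by inclusion in every coordinate. -/
abbrev Fam (m N : ℕ) : Type := (Fin m → Finset (Fin N)) × (Fin m → Finset (Fin N))

/-- What a probe reads: a nondecreasing real function of the left family alone, a nondecreasing
real function of the right family alone, or the contents of one of the `s` cells. -/
inductive Source (m N s : ℕ) : Type where
  | left (f : (Fin m → Finset (Fin N)) → ℝ) (hf : Monotone f) : Source m N s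
  | right (f : (Fin m → Finset (Fin N)) → ℝ) (hf : Monotone f) : Source m N s
  | cell (c : Fin s) : Source m N s

/-- A monotone non-adaptive data structure with `s` cells and `t` probes per query.  Every cell
contains an arbitrary nondecreasing real function of all `2 m` sets (`store`); the query `(i, j)`
reads `t` numbers, whose sources depend only on `(i, j)` (`probe`), and reports a set which is an
arbitrary nondecreasing function of these `t` real numbers (`out`). -/
structure DS (m N s t : ℕ) : Type where
  store : Fin s → Fam m N → ℝ
  store_mono : ∀ c, Monotone (store c)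
  probe : Fin m → Fin m → Fin t → Source m N s
  out : Fin m → Fin m → (Fin t → ℝ) → Finset (Fin N)
  out_mono : ∀ i j, Monotone (out i j)

/-- The number which is read by a probe, if the two families are `x`. -/
def DS.read {m N s t : ℕ} (D : DS m N s t) (x : Fam m N) : Source m N s → ℝ
  | .left f _ => f x.1
  | .right f _ => f x.2
  | .cell c => D.store c x

/-- The set reported by the query `(i, j)`, if the two families are `x`. -/
def DS.answer {m N s t : ℕ} (D : DS m N s t) (i j : Fin m) (x : Fam m N) : Finset (Fin N) :=
  D.out i j fun l => D.read x (D.probe i j l)

/-- The total size of the `2 m` sets. -/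
def totalSize {m N : ℕ} (x : Fam m N) : ℕ := ∑ i, (x.1 i).card + ∑ j, (x.2 j).card

open Classical in
/-- The random data structure (`p` is a probability distribution on the finite set `Ω` of
structures) answers all queries on all families of total size at most `N` all of whose
intersections have at most `T` elements: every single element is reported if and only if it is in
both sets, with probability at least `1 / 2 + δ`. -/
structure Solves {m N s t : ℕ} (T : ℕ) (δ : ℝ) {Ω : Type} [Fintype Ω] (p : Ω → ℝ)
    (D : Ω → DS m N s t) : Prop where
  nonneg : ∀ ω, 0 ≤ p ω
  sum_one : ∑ ω, p ω = 1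
  correct : ∀ x : Fam m N, totalSize x ≤ N → (∀ i j, (x.1 i ∩ x.2 j).card ≤ T) →
    ∀ (i j : Fin m) (u : Fin N),
      1 / 2 + δ ≤ ∑ ω with (u ∈ (D ω).answer i j x ↔ u ∈ x.1 i ∩ x.2 j), p ω

/-! ## The product measure -/

section Measure

variable {V : Type} [Fintype V]

/-- The weight of the point `F`: every coordinate is `true` with probability `ρ`. -/
noncomputable def wt (ρ : ℝ) (F : V → Bool) : ℝ := ∏ v, if F v = true then ρ else 1 - ρ

variable [DecidableEq V]

/-- The expectation of `g`. -/
noncomputable def Ex (ρ : ℝ) (g : (V → Bool) → ℝ) : ℝ := ∑ F : V → Bool, wt ρ F * g F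

/-- The probability of `D`. -/
noncomputable def Pr (ρ : ℝ) (D : Set (V → Bool)) : ℝ := Ex ρ (D.indicator fun _ => (1 : ℝ))

end Measure

section Points

variable {V : Type} [DecidableEq V]

/-- The point whose only `true` coordinates are `a` and `b`. -/
def pt (a b : V) : V → Bool := fun v => decide (v = a ∨ v = b)

/-- The points at which `r` is smaller than at `pt a b`. -/
def Dn (r : (V → Bool) → ℝ) (a b : V) : Set (V → Bool) := {F | r F < r (pt a b)}

end Points

/-- The coordinates: `inl (i, u)` says that `u` is in the left set `i`, `inr (j, u)` that `u` is in
the right set `j`. -/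
abbrev Vx (m K : ℕ) : Type := (Fin m × Fin K) ⊕ (Fin m × Fin K)

/-- The constant of the mixed representations. -/
noncomputable def c1 (ρ : ℝ) : ℝ := 24 * (1 + Real.log (8 / ρ)) / ρ ^ 3

end Pool.Agent.H257R3.SI
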