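import Mathlib
import Pool.Agent.H257R3.SI.Defs

/-!
# Statements (as Props) of the lemmas
-/

namespace Pool.Agent.H257R3.SI

/-- A1: expectation of a constant. -/
def St_A1 : Prop := ∀ (V : Type) [Fintype V] [DecidableEq V] (ρ c : ℝ),
  Ex ρ (fun _ : V → Bool => c) = c

/-- A2: one coordinate is independent of everything which does not depend on it. -/
def St_A2 : Prop := ∀ (V : Type) [Fintype V] [DecidableEq V] (ρ : ℝ) (v : V) (φ : Bool → ℝ)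
  (g : (V → Bool) → ℝ), (∀ F b, g (Function.update F v b) = g F) →
  Ex ρ (fun F => φ (F v) * g F) = (ρ * φ true + (1 - ρ) * φ false) * Ex ρ g

/-- A3: down-sets are negatively correlated with every coordinate. -/
def St_A3 : Prop := ∀ (V : Type) [Fintype V] [DecidableEq V] (ρ : ℝ) (v : V)
  (D : Set (V → Bool)), 0 ≤ ρ → ρ ≤ 1 → (∀ F F', F ≤ F' → F' ∈ D → F ∈ D) →
  Pr ρ (D ∩ {F | F v = true}) ≤ ρ * Pr ρ D

/-- A4: products over different coordinates. -/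
def St_A4 : Prop := ∀ (V : Type) [Fintype V] [DecidableEq V] (ρ : ℝ) (S : Finset V)
  (φ : Bool → ℝ),
  Ex ρ (fun F => ∏ v ∈ S, φ (F v)) = (ρ * φ true + (1 - ρ) * φ false) ^ S.card

/-- A5: products over the edges of a matching. -/
def St_A5 : Prop := ∀ (V : Type) [Fintype V] [DecidableEq V] (ρ c : ℝ) (M : Finset (V × V)),
  (∀ p ∈ M, ∀ q ∈ M, p.1 ≠ q.2) →
  (∀ p ∈ M, ∀ q ∈ M, p ≠ q → p.1 ≠ q.1 ∧ p.2 ≠ q.2) →
  Ex ρ (fun F => ∏ p ∈ M, (1 + c * (if F p.1 = true ∧ F p.2 = true then 1 else 0)))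
    = (1 + c * ρ ^ 2) ^ M.card

/-- A6: a set on which many coordinates are rarely `true` is small. -/
def St_A6 : Prop := ∀ (V : Type) [Fintype V] [DecidableEq V] (ρ : ℝ) (S : Finset V)
  (D : Set (V → Bool)), 0 ≤ ρ → ρ ≤ 1 →
  (∀ v ∈ S, Pr ρ (D ∩ {F | F v = true}) ≤ ρ / 4 * Pr ρ D) →
  Pr ρ D ≤ Real.exp (-(ρ * S.card / 4))

/-- A7: summation over dyadic levels. -/
def St_A7 : Prop := ∀ (ι : Type) (s : Finset ι) (w : ι → ℝ) (A : ℝ), 0 ≤ A →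
  (∀ i ∈ s, 0 < w i ∧ w i ≤ 1) →
  (∀ n : ℕ, (({i ∈ s | (1 / 2 : ℝ) ^ (n + 1) < w i ∧ w i ≤ (1 / 2 : ℝ) ^ n}).card : ℝ)
    ≤ A * ((n : ℝ) + 1) ^ 2) →
  ∑ i ∈ s, w i ≤ 12 * A

/-- A8: representations of one query which are not mixed. -/
def St_A8 : Prop := ∀ (V : Type) [Fintype V] [DecidableEq V] (ρ : ℝ) (ι : Type) (U : Finset ι)
  (a b : ι → V) (r : (V → Bool) → ℝ), 0 < ρ → ρ ≤ 1 → Monotone r → Set.InjOn a U →
  (∀ u ∈ U, Pr ρ (Dn r (a u) (b u) ∩ {F | F (a u) = true}) ≤ ρ / 8 * Pr ρ (Dn r (a u) (b u))) →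
  ∑ u ∈ U, Pr ρ (Dn r (a u) (b u)) ≤ 48 / ρ

/-- A9: stars. -/
def St_A9 : Prop := ∀ (V : Type) [Fintype V] [DecidableEq V] (ρ c : ℝ) (ι : Type) (S : Finset ι)
  (a b : ι → V) (a0 : V) (r : (V → Bool) → ℝ), 0 < ρ → ρ ≤ 1 → Monotone r → S.Nonempty →
  Set.InjOn b S → (∀ p ∈ S, a p = a0) →
  (∀ p ∈ S, c ≤ Pr ρ (Dn r (a p) (b p) ∩ {F | F (a p) = true})) →
  c ≤ Real.exp (-(ρ * S.card))

/-- A10: a graph without large matchings and large stars is small. -/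
def St_A10 : Prop := ∀ (V : Type) [DecidableEq V] (ι : Type) (P : Finset ι) (a b : ι → V)
  (K L : ℝ), 0 ≤ K → 0 ≤ L →
  (∀ M ⊆ P, (∀ p ∈ M, ∀ q ∈ M, p ≠ q → a p ≠ a q ∧ b p ≠ b q) → (M.card : ℝ) ≤ K) →
  (∀ v : V, (({p ∈ P | a p = v}).card : ℝ) ≤ L) →
  (∀ v : V, (({p ∈ P | b p = v}).card : ℝ) ≤ L) →
  (P.card : ℝ) ≤ 2 * K * L

/-- A11: mixed representations of a cell. -/
def St_A11 : Prop := ∀ (V : Type) [Fintype V] [DecidableEq V] (ρ : ℝ) (ι : Type) (P : Finset ι)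
  (a b : ι → V) (r : (V → Bool) → ℝ), 0 < ρ → ρ ≤ 1 → Monotone r →
  (∀ p ∈ P, ∀ q ∈ P, a p ≠ b q) → (∀ p ∈ P, ∀ q ∈ P, a p = a q → b p = b q → p = q) →
  (∀ p ∈ P, ρ / 8 * Pr ρ (Dn r (a p) (b p)) < Pr ρ (Dn r (a p) (b p) ∩ {F | F (a p) = true})) →
  (∀ p ∈ P, ρ / 8 * Pr ρ (Dn r (a p) (b p)) < Pr ρ (Dn r (a p) (b p) ∩ {F | F (b p) = true})) →
  ∑ p ∈ P, Pr ρ (Dn r (a p) (b p)) ≤ c1 ρ

/-- A12: the deterministic counting inequality. -/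
def St_A12 : Prop := ∀ (m K s t : ℕ) (ρ : ℝ), 0 < ρ → ρ ≤ 1 →
  ∀ (cells : Fin s → (Vx m K → Bool) → ℝ) (pr : Fin m → Fin m → Fin t → (Vx m K → Bool) → ℝ),
  (∀ c, Monotone (cells c)) →
  (∀ i j l, Monotone (pr i j l) ∧
    ((∀ F F' : Vx m K → Bool, (∀ e, F (.inl e) = F' (.inl e)) → pr i j l F = pr i j l F') ∨
     (∀ F F' : Vx m K → Bool, (∀ e, F (.inr e) = F' (.inr e)) → pr i j l F = pr i j l F') ∨
     (∃ c, pr i j l = cells c))) →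
  ∀ G : Fin m → Fin K → Fin m → Set (Vx m K → Bool),
  (∀ i u j, ∀ F ∈ G i u j, F (.inr (j, u)) = true ∧
    ∃ l, pr i j l F < pr i j l (pt (.inl (i, u)) (.inr (j, u)))) →
  ∑ i, ∑ u, ∑ j, Pr ρ (G i u j) ≤ 96 * m ^ 2 * t + s * (ρ * c1 ρ)

/-- A13: few points have a large intersection. -/
def St_A13 : Prop := ∀ (m K T : ℕ) (ρ : ℝ), 0 ≤ ρ → ρ ≤ 1 →
  Pr ρ {F : Vx m K → Bool | ∃ i j, T <
    (Finset.univ.filter fun u => F (.inl (i, u)) = true ∧ F (.inr (j, u)) = true).card}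
    ≤ (m : ℝ) ^ 2 * ((1 / 2) ^ T * Real.exp (ρ ^ 2 * K))

/-- A14: the inequality for data structures. -/
def St_A14 : Prop := ∀ (m K N T s t : ℕ) (δ ρ : ℝ), K ≤ N → 2 * m * K ≤ N → 1 ≤ T → 0 < δ →
  0 < ρ → ρ ≤ 1 → ∀ (Ω : Type) [Fintype Ω] (p : Ω → ℝ) (D : Ω → DS m N s t),
  Solves T δ p D →
  2 * δ * ((m : ℝ) ^ 2 * K) * (ρ * (1 - ρ) - Pr ρ {F : Vx m K → Bool | ∃ i j, T <
    (Finset.univ.filter fun u => F (.inl (i, u)) = true ∧ F (.inr (j, u)) = true).card})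
    ≤ 96 * m ^ 2 * t + s * (ρ * c1 ρ)

/-- A15: the final theorem. -/
def St_A15 : Prop := ∀ (C δ : ℝ), 1 ≤ C → 0 < δ → δ ≤ 1 / 2 → ∃ c : ℝ, 0 < c ∧
  ∀ N T : ℕ, 1 ≤ T → Real.log N ≤ c * T → (T : ℝ) ≤ c * N →
  ∃ m : ℕ, m ≤ N ∧ ∀ (s t : ℕ), (t : ℝ) ≤ C * T →
    ∀ (Ω : Type) [Fintype Ω] (p : Ω → ℝ) (D : Ω → DS m N s t), Solves T δ p D →
      c * ((N : ℝ) ^ 2 / T) ≤ s

end Pool.Agent.H257R3.SI
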