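import Mathlib
import Pool.Agent.H207R3.SI_A1
import Pool.Agent.Helper116R3.SI_A4
import Pool.Agent.H96R3.SI_A6
import Pool.Agent.H989R3.SI_A7
import Pool.Agent.H329R3.SI_A8
import Pool.Agent.H497R3.SI_A10
import Pool.Agent.H495R3.SI_A11
import Pool.Agent.H817R3.SI_A12
import Pool.Agent.H874R3.SI_A13
import Pool.Agent.H942R3.SI_A14
import Pool.Agent.Helper355R3.SI_A15

/-!
# Assembly (joint work with helpers 207, 116, 96, 989, 329, 497, 495, 817, 874, 942, 355, 680)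
-/

namespace Pool.Agent.H257R3.SI

theorem main (h3 : St_A3) (h9 : St_A9) : St_A15 := by
  have h1 : St_A1 := Pool.Agent.H207R3.a1
  have h2 : St_A2 := Pool.Agent.H207R3.a2
  have h4 : St_A4 := Pool.Agent.Helper116R3.a4 h1 h2
  have h5 : St_A5 := Pool.Agent.Helper116R3.a5 h1 h2
  have h6 : St_A6 := Pool.Agent.H96R3.a6 h4
  have h7 : St_A7 := Pool.Agent.H989R3.a7
  have h8 : St_A8 := Pool.Agent.H329R3.a8 h6 h7
  have h10 : St_A10 := Pool.Agent.H497R3.a10
  have h11 : St_A11 := Pool.Agent.H495R3.a11 h1 h5 h7 h9 h10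
  have h12 : St_A12 := Pool.Agent.H817R3.a12 h3 h8 h11
  have h13 : St_A13 := Pool.Agent.H874R3.a13 h5
  have h14 : St_A14 := Pool.Agent.H942R3.a14 h1 h2 h12
  exact Pool.Agent.Helper355R3.a15 h13 h14

end Pool.Agent.H257R3.SI
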