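import Mathlib
import Pool.Agent.H257R3.SI.Main
import Pool.Agent.H680R3.SI_A3
import Pool.Agent.H680R3.SI_A9

namespace Pool.Agent.H257R3.SI

theorem final (C δ : ℝ) (hC : 1 ≤ C) (hδ : 0 < δ) (hδ2 : δ ≤ 1 / 2) : ∃ c : ℝ, 0 < c ∧
    ∀ N T : ℕ, 1 ≤ T → Real.log N ≤ c * T → (T : ℝ) ≤ c * N →
    ∃ m : ℕ, m ≤ N ∧ ∀ (s t : ℕ), (t : ℝ) ≤ C * T →
      ∀ (Ω : Type) [Fintype Ω] (p : Ω → ℝ) (D : Ω → DS m N s t), Solves T δ p D →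
        c * ((N : ℝ) ^ 2 / T) ≤ s := by
  have h1 : St_A1 := Pool.Agent.H207R3.a1
  have h2 : St_A2 := Pool.Agent.H207R3.a2
  have h4 : St_A4 := Pool.Agent.Helper116R3.a4 h1 h2
  have h3 : St_A3 := Pool.Agent.H680R3.a3 h2
  have h9 : St_A9 := Pool.Agent.H680R3.a9 h4
  exact main h3 h9 C δ hC hδ hδ2

end Pool.Agent.H257R3.SI
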